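import Pool.Agent.R547.LB.Fin

/-!
# Unanimity lobbying with a super-constant quota is not in P under ETH

`z m` is the quota for `m` issues. `OLD z` is the decision problem `OLD(Unan, ψ_z)`, `ETH` the
exponential time hypothesis and `IoETH` its infinitely-often form (`Pool/Agent/R547/LB/Defs.lean`).
-/

namespace Pool.Agent.Results.MP_8eff38_lc.EthHard

open Pool.Agent.NPC Pool.Agent.R547.LB

/-- Let `z m ≤ m` and `z' m = min (z m) (m - z m)`.
(1) Under ETH, if `z' m → ∞` then `OLD z` is not in P.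
(2) Under ETH, more generally, if for some `c` and every `K` every interval `[x, x ^ c]` with `x`
large contains an `m` with `z' m ≥ K`, then `OLD z` is not in P.
(3) Under the infinitely-often ETH, if `z'` is unbounded then `OLD z` is not in P. -/
theorem result (z : ℕ → ℕ) (hz : ∀ m, z m ≤ m) :
    (ETH → (∀ K, ∃ m₀, ∀ m, m₀ ≤ m → K ≤ min (z m) (m - z m)) → ¬ InPP (OLD z)) ∧
    (ETH → (∃ c : ℕ, ∀ K, ∃ x₀, ∀ x, x₀ ≤ x → ∃ m, x ≤ m ∧ m ≤ x ^ c ∧
      K ≤ min (z m) (m - z m)) → ¬ InPP (OLD z)) ∧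
    (IoETH → (∀ K, ∃ m, K ≤ min (z m) (m - z m)) → ¬ InPP (OLD z)) := by
  refine ⟨fun hE h hP => ?_, fun hE h hP => (main z hz hP).1 h hE,
    fun hE h hP => (main z hz hP).2 h hE⟩
  refine (main z hz hP).1 ⟨1, fun K => ?_⟩ hE
  obtain ⟨m₀, h0⟩ := h K
  exact ⟨m₀, fun x hx => ⟨x, le_rfl, by simp, h0 x hx⟩⟩

end Pool.Agent.Results.MP_8eff38_lc.EthHard
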